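import Pool.Agent.Q168.PW.Comb

/-!
# Superpatterns on `k + 1` letters

If a word of length `n` over `k + 1` letters contains all permutations of `[k]`, then, for one of
the `k + 1` ways to drop a letter, at least `k!/(k+1)` permutational words over the remaining
letters are subwords. Reading such a word greedily is a walk in an automaton whose states are the
`n + 1` positions, and its cost (the letters are ranked by their next occurrence) is at most `n`.
The bound of `Q168.PW.card_low` for the number of permutational words of low cost gives the result.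
-/

set_option autoImplicit false

namespace Pool.Agent.Results.MP_467d97_co.LowerOrderTerm

open Finset Q168.PW

/-- the word `σ` contains the permutation `τ` -/
def Contains {n r k : ℕ} (σ : Fin n → Fin r) (τ : Equiv.Perm (Fin k)) : Prop :=
  ∃ i : Fin k → Fin n, StrictMono i ∧ ∀ j j', τ j < τ j' ↔ σ (i j) < σ (i j')

/-- `f k r`: the least length of a word over `r` letters that contains all permutations of `[k]` -/
noncomputable def f (k r : ℕ) : ℕ :=
  sInf {n | ∃ σ : Fin n → Fin r, ∀ τ : Equiv.Perm (Fin k), Contains σ τ}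

/-- words of length `k (k + 1)` suffice -/
theorem exists_super (k : ℕ) :
    ∃ σ : Fin (k * (k + 1)) → Fin (k + 1), ∀ τ : Equiv.Perm (Fin k), Contains σ τ := by
  refine ⟨fun q => ⟨q % (k + 1), Nat.mod_lt _ (Nat.succ_pos k)⟩, fun τ => ?_⟩
  have hlt : ∀ j : Fin k, (j : ℕ) * (k + 1) + (τ j : ℕ) < k * (k + 1) := by
    intro j
    have h1 := j.2
    have h2 := (τ j).2
    nlinarith
  refine ⟨fun j => ⟨j * (k + 1) + τ j, hlt j⟩, ?_, ?_⟩
  · intro j j' hjj
    rw [Fin.lt_def] at hjj ⊢
    simp only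
    have h2 := (τ j).2
    nlinarith
  · intro j j'
    have e : ∀ j : Fin k, ((j : ℕ) * (k + 1) + (τ j : ℕ)) % (k + 1) = τ j := by
      intro j
      rw [Nat.add_comm, Nat.add_mul_mod_self_right, Nat.mod_eq_of_lt]
      have := (τ j).2
      omega
    rw [Fin.lt_def, Fin.lt_def]
    simp only
    rw [e, e]

/-! ### ranks -/

theorem sum_rank {k : ℕ} (d : Fin k → ℕ) (hd : Function.Injective d) :
    ∑ t, (((univ.filter (fun t' => d t' ≤ d t)).card : ℕ) : ℝ) = k * ((k + 1) / 2) := by
  have h1 : ∑ t, (univ.filter (fun t' => d t' ≤ d t)).card +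
      ∑ t, (univ.filter (fun t' => d t' ≤ d t)).card = k * k + k := by
    have h2 : ∑ t, (univ.filter (fun t' => d t' ≤ d t)).card =
        ∑ t, (univ.filter (fun t' => d t ≤ d t')).card := by
      simp only [card_filter]
      rw [sum_comm]
    rw [h2]
    nth_rewrite 1 [← h2]
    rw [← sum_add_distrib]
    have h3 : ∀ t : Fin k, (univ.filter (fun t' => d t' ≤ d t)).card +
        (univ.filter (fun t' => d t ≤ d t')).card = k + 1 := by
      intro t
      rw [← card_union_add_card_inter]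
      have e1 : (univ.filter (fun t' => d t' ≤ d t)) ∪ (univ.filter (fun t' => d t ≤ d t')) =
          (univ : Finset (Fin k)) := by
        ext t'
        simp only [mem_union, mem_filter, mem_univ, true_and, iff_true]
        exact le_total _ _
      have e2 : (univ.filter (fun t' => d t' ≤ d t)) ∩ (univ.filter (fun t' => d t ≤ d t')) =
          {t} := by
        ext t'
        simp only [mem_inter, mem_filter, mem_univ, true_and, mem_singleton]
        constructor
        · rintro ⟨h4, h5⟩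
          exact hd (le_antisymm h4 h5)
        · rintro rfl
          exact ⟨le_refl _, le_refl _⟩
      rw [e1, e2, card_univ, Fintype.card_fin, card_singleton]
    rw [sum_congr rfl (fun t _ => h3 t), sum_const, card_univ, Fintype.card_fin, smul_eq_mul]
    ring
  have h4 : ((∑ t, (univ.filter (fun t' => d t' ≤ d t)).card : ℕ) : ℝ) +
      ((∑ t, (univ.filter (fun t' => d t' ≤ d t)).card : ℕ) : ℝ) = k * k + k := by
    exact_mod_cast h1
  rw [Nat.cast_sum] at h4
  linarith

theorem rank_le {k : ℕ} (d : Fin k → ℕ) (hd : Function.Injective d) (hpos : ∀ t, 0 < d t)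
    (t : Fin k) : (univ.filter (fun t' => d t' ≤ d t)).card ≤ d t := by
  calc (univ.filter (fun t' => d t' ≤ d t)).card
      = ((univ.filter (fun t' => d t' ≤ d t)).image d).card :=
        (card_image_of_injective _ hd).symm
    _ ≤ (Icc 1 (d t)).card := by
        apply card_le_card
        intro x hx
        rw [mem_image] at hx
        obtain ⟨t', ht', rfl⟩ := hx
        rw [mem_filter] at ht'
        rw [mem_Icc]
        exact ⟨hpos t', ht'.2⟩
    _ = d t := by simp

/-! ### the automaton -/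

section
variable {k n : ℕ} (g : Fin k → Fin (k + 1)) (s : List (Fin (k + 1)))

/-- the distance from the position `p` to the next occurrence of the letter `g t` -/
def dist (p : ℕ) (t : Fin k) : ℕ :=
  if g t ∈ s.drop p then (s.drop p).idxOf (g t) + 1 else (s.drop p).length + 1 + t

/-- the rank of the letter `g t` -/
noncomputable def rk (p : ℕ) (t : Fin k) : ℝ :=
  ((univ.filter (fun t' => dist g s p t' ≤ dist g s p t)).card : ℕ)

/-- the position after the next occurrence of the letter `g t` -/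
def nxt (p : Fin (s.length + 1)) (t : Fin k) : Fin (s.length + 1) :=
  if h : g t ∈ s.drop p then ⟨p + (s.drop p).idxOf (g t) + 1, by
    have := List.idxOf_lt_length_of_mem h
    rw [List.length_drop] at this
    omega⟩ else 0

variable {g s}

theorem dist_inj (hg : Function.Injective g) (p : ℕ) : Function.Injective (dist g s p) := by
  intro t t' h
  unfold dist at h
  split_ifs at h with h1 h2 h2
  · have : (s.drop p).idxOf (g t) = (s.drop p).idxOf (g t') := by omega
    have h3 := List.getElem_idxOf (List.idxOf_lt_length_of_mem h1)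
    have h4 := List.getElem_idxOf (List.idxOf_lt_length_of_mem h2)
    apply hg
    rw [← h3, ← h4]
    congr 1
  · have := List.idxOf_lt_length_of_mem h1
    omega
  · have := List.idxOf_lt_length_of_mem h2
    omega
  · exact Fin.ext (by omega)

theorem dist_pos (p : ℕ) (t : Fin k) : 0 < dist g s p t := by
  unfold dist; split_ifs <;> omega

theorem sublist_drop {α : Type*} [DecidableEq α] {a : α} {w : List α} : ∀ {L : List α},
    (a :: w).Sublist L → a ∈ L ∧ w.Sublist (L.drop (L.idxOf a + 1))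
  | [], h => by simp at h
  | b :: L, h => by
    by_cases hab : b = a
    · subst hab
      refine ⟨List.mem_cons_self, ?_⟩
      rw [List.idxOf_cons_self]
      simp only [zero_add, List.drop_succ_cons, List.drop_zero]
      exact List.cons_sublist_cons.1 h
    · have h1 : (a :: w).Sublist L := by
        rcases List.sublist_cons_iff.1 h with h2 | ⟨r, h2, h3⟩
        · exact h2
        · exact absurd (List.cons.inj h2).1.symm hab
      obtain ⟨h2, h3⟩ := sublist_drop h1
      refine ⟨List.mem_cons_of_mem _ h2, ?_⟩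
      rw [List.idxOf_cons_ne _ hab, Nat.succ_eq_add_one, List.drop_succ_cons]
      exact h3

theorem cost_le (hg : Function.Injective g) : ∀ (w : List (Fin k)) (p : Fin (s.length + 1)),
    (w.map g).Sublist (s.drop p) →
      cost (nxt g s) (fun p t => rk g s p t) p w ≤ s.length - p
  | [], p, _ => by
    have : (p : ℕ) ≤ s.length := by omega
    have : ((p : ℕ) : ℝ) ≤ s.length := by exact_mod_cast this
    simp only [cost]
    linarith
  | t :: w, p, h => by
    rw [List.map_cons] at h
    obtain ⟨h1, h2⟩ := sublist_drop h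
    rw [List.drop_drop] at h2
    have h3 : ((nxt g s p t : Fin (s.length + 1)) : ℕ) = p + (s.drop p).idxOf (g t) + 1 := by
      unfold nxt
      rw [dif_pos h1]
    have h4 := cost_le hg w (nxt g s p t) (by
      rw [h3]
      exact h2)
    have h5 : rk g s p t ≤ ((s.drop p).idxOf (g t) : ℝ) + 1 := by
      have h6 := rank_le (dist g s p) (dist_inj hg p) (dist_pos p) t
      have h7 : dist g s p t = (s.drop p).idxOf (g t) + 1 := by
        unfold dist; rw [if_pos h1]
      rw [h7] at h6
      unfold rk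
      rw [h7]
      exact_mod_cast h6
    have h8 : (((nxt g s p t : Fin (s.length + 1)) : ℕ) : ℝ) =
        p + ((s.drop p).idxOf (g t) : ℝ) + 1 := by
      rw [h3]; push_cast; ring
    simp only [cost]
    rw [h8] at h4
    linarith

end

theorem exists_succAbove {k : ℕ} {g : Fin k → Fin (k + 1)} (hg : StrictMono g) :
    ∃ m : Fin (k + 1), g = m.succAbove := by
  obtain ⟨m, hm⟩ : ∃ m, m ∉ Set.range g := by
    by_contra hc
    push Not at hc
    have h1 : Function.Surjective g := hc
    have := Fintype.card_le_of_surjective g h1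
    simp at this
  refine ⟨m, ?_⟩
  rw [← hg.range_inj (Fin.strictMono_succAbove m), Fin.range_succAbove]
  have h1 : univ.image g ⊆ ({m}ᶜ : Finset (Fin (k + 1))) := by
    intro x hx
    rw [mem_image] at hx
    obtain ⟨t, _, rfl⟩ := hx
    rw [mem_compl, mem_singleton]
    rintro rfl
    exact hm ⟨t, rfl⟩
  have h2 := eq_of_subset_of_card_le h1 (by
    rw [card_image_of_injective _ hg.injective, card_compl]
    simp)
  have h3 : Set.range g = ((univ.image g : Finset (Fin (k + 1))) : Set (Fin (k + 1))) := by simp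
  rw [h3, h2]
  simp

theorem exists_sublist {k n : ℕ} {σ : Fin n → Fin (k + 1)} {τ : Equiv.Perm (Fin k)}
    (h : Contains σ τ) : ∃ m : Fin (k + 1),
      ((List.ofFn τ).map m.succAbove).Sublist (List.ofFn σ) := by
  obtain ⟨i, hi, h⟩ := h
  have hg : StrictMono (fun t => σ (i (τ.symm t))) := by
    intro t t' htt
    exact (h _ _).1 (by simpa using htt)
  obtain ⟨m, hm⟩ := exists_succAbove hg
  refine ⟨m, ?_⟩
  have e : (List.ofFn τ).map m.succAbove = List.ofFn (fun j => σ (i j)) := by
    rw [List.map_ofFn]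
    congr 1
    funext j
    have := congrFun hm (τ j)
    simp only [Equiv.symm_apply_apply] at this
    rw [Function.comp_apply, ← this]
  rw [e]
  rw [List.sublist_iff_exists_fin_orderEmbedding_get_eq]
  refine ⟨OrderEmbedding.ofStrictMono (fun j => Fin.cast (by simp) (i (Fin.cast (by simp) j))) ?_, ?_⟩
  · intro j j' hjj
    exact hi hjj
  · intro j
    rw [List.get_ofFn, List.get_ofFn]
    rfl

theorem card_bound {k n : ℕ} (hk : 1 ≤ k) (σ : Fin n → Fin (k + 1))
    (hσ : ∀ τ : Equiv.Perm (Fin k), Contains σ τ) {θ τ₀ : ℝ} (hθ : 0 ≤ θ) (hτ : 0 ≤ τ₀)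
    (hτk : τ₀ ≤ 2 * k ^ 2) (hn : (n : ℝ) ≤ k * ((k + 1) / 2) - 2 * θ * Real.sqrt k - τ₀) :
    1 ≤ (k + 1) * (Real.exp (-(τ₀ ^ 2 / (4 * k ^ 3))) +
      (n + 1) * k * Real.exp (-(θ ^ 2 / (8 * k ^ 2)))) := by
  classical
  set s := List.ofFn σ with hs
  have hsl : s.length = n := by rw [hs, List.length_ofFn]
  have hk0 : (0 : ℝ) < k := by exact_mod_cast hk
  -- the low words for the letter `m`
  let A : Fin (k + 1) → Finset (List (Fin k)) := fun m =>
    (W (Finset.univ : Finset (Fin k))).filter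
      (fun l => cost (nxt m.succAbove s) (fun p t => rk m.succAbove s p t) 0 l ≤
        k * ((k + 1) / 2) - 2 * θ * Real.sqrt k - τ₀)
  have hA : ∀ m, ((A m).card : ℝ) ≤ k.factorial * (Real.exp (-(τ₀ ^ 2 / (4 * k ^ 3))) +
        (n + 1) * k * Real.exp (-(θ ^ 2 / (8 * k ^ 2)))) := by
    intro m
    have h := card_low (nxt m.succAbove s) (fun p t => rk m.succAbove s p t) hk
      (fun p t => ⟨Nat.cast_nonneg _, by
        have : (univ.filter (fun t' => dist m.succAbove s p t' ≤ dist m.succAbove s p t)).card ≤ k := by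
          have := card_le_univ (univ.filter (fun t' => dist m.succAbove s p t' ≤ dist m.succAbove s p t))
          simpa using this
        unfold rk
        exact_mod_cast this⟩)
      (μ := ((k : ℝ) + 1) / 2)
      (fun p => sum_rank _ (dist_inj (Fin.strictMono_succAbove m).injective p))
      (by
        have : (1 : ℝ) ≤ k := by exact_mod_cast hk
        linarith) hθ hτ hτk 0
    have e : ((s.length + 1 : ℕ) : ℝ) = n + 1 := by rw [hsl]; push_cast; ring
    rw [Fintype.card_fin, e] at h
    exact h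
  have hcover : (univ : Finset (Equiv.Perm (Fin k))).image
      (fun τ : Equiv.Perm (Fin k) => List.ofFn (τ : Fin k → Fin k)) ⊆
      univ.biUnion A := by
    intro w hw
    rw [mem_image] at hw
    obtain ⟨τ, _, rfl⟩ := hw
    obtain ⟨m, hm⟩ := exists_sublist (hσ τ)
    rw [mem_biUnion]
    refine ⟨m, mem_univ _, ?_⟩
    rw [mem_filter, mem_W]
    refine ⟨⟨List.nodup_ofFn.2 τ.injective, ?_⟩, ?_⟩
    · ext t
      rw [List.mem_toFinset, List.mem_ofFn]
      simp only [mem_univ, iff_true]
      exact ⟨τ.symm t, by simp⟩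
    · have := cost_le (g := m.succAbove) (s := s) (Fin.strictMono_succAbove m).injective
        (List.ofFn τ) 0 (by simpa using hm)
      refine this.trans ?_
      rw [hsl]
      simp only [Fin.val_zero, Nat.cast_zero, sub_zero]
      exact hn
  have hcard : (k.factorial : ℝ) ≤ ∑ m : Fin (k + 1), ((A m).card : ℝ) := by
    have h1 := (card_le_card hcover).trans card_biUnion_le
    rw [card_image_of_injective _ (fun τ τ' h => Equiv.ext (fun j => congrFun (List.ofFn_injective h) j)),
      card_univ, Fintype.card_perm, Fintype.card_fin] at h1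
    exact_mod_cast h1
  have h2 := hcard.trans (sum_le_sum (fun m _ => hA m))
  rw [sum_const, card_univ, Fintype.card_fin, nsmul_eq_mul] at h2
  have hf : (0 : ℝ) < k.factorial := by exact_mod_cast k.factorial_pos
  have h3 : (k.factorial : ℝ) * 1 ≤ k.factorial * ((k + 1) * (Real.exp (-(τ₀ ^ 2 / (4 * k ^ 3))) +
      (n + 1) * k * Real.exp (-(θ ^ 2 / (8 * k ^ 2))))) := by
    push_cast at h2
    linarith
  exact le_of_mul_le_mul_left h3 hf

theorem main_bound {k : ℕ} (hk : 3 ≤ k) :
    ((k : ℝ) ^ 2 + k) / 2 - 16 * (k : ℝ) ^ (3 / 2 : ℝ) * Real.sqrt (Real.log k) ≤ f k (k + 1) := by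
  have hne : {n | ∃ σ : Fin n → Fin (k + 1), ∀ τ : Equiv.Perm (Fin k), Contains σ τ}.Nonempty :=
    ⟨_, exists_super k⟩
  obtain ⟨n, hn, σ, hσ⟩ : ∃ n, n = f k (k + 1) ∧ ∃ σ : Fin n → Fin (k + 1),
      ∀ τ : Equiv.Perm (Fin k), Contains σ τ := ⟨_, rfl, Nat.sInf_mem hne⟩
  have hk3 : (3 : ℝ) ≤ k := by exact_mod_cast hk
  have hk0 : (0 : ℝ) < k := by linarith
  by_contra hc
  push Not at hc
  rw [← hn] at hc
  set L := Real.log k with hL
  have hL0 : 0 ≤ L := Real.log_nonneg (by linarith)
  set q := Real.sqrt L with hq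
  have hq0 : 0 ≤ q := Real.sqrt_nonneg _
  have hqq : q ^ 2 = L := Real.sq_sqrt hL0
  set r := Real.sqrt k with hr
  have hr0 : 0 ≤ r := Real.sqrt_nonneg _
  have hrr : r ^ 2 = k := Real.sq_sqrt hk0.le
  have h32 : (k : ℝ) ^ (3 / 2 : ℝ) = k * r := by
    rw [show (3 / 2 : ℝ) = 1 + 1 / 2 by norm_num, Real.rpow_add hk0, Real.rpow_one,
      ← Real.sqrt_eq_rpow]
  rw [h32] at hc
  set a := Real.sqrt 40 with ha
  have ha0 : 0 ≤ a := Real.sqrt_nonneg _
  have haa : a ^ 2 = 40 := Real.sq_sqrt (by norm_num)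
  set b := Real.sqrt 8 with hb
  have hb0 : 0 ≤ b := Real.sqrt_nonneg _
  have hbb : b ^ 2 = 8 := Real.sq_sqrt (by norm_num)
  have hab : 2 * a + b ≤ 16 := by
    have h1 : a ≤ 6.4 := by nlinarith
    have h2 : b ≤ 2.9 := by nlinarith
    linarith
  have hLk : L ≤ k / 2 := by
    -- `log k ≤ k / 2`
    have h1 : Real.log (k / 2) ≤ k / 2 - 1 := Real.log_le_sub_one_of_pos (by linarith)
    have h2 : Real.log 2 ≤ 1 := by
      have := Real.log_two_lt_d9
      linarith
    rw [Real.log_div (by linarith) (by norm_num)] at h1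
    linarith
  have key := card_bound (k := k) (by omega) σ hσ (θ := k * a * q) (τ₀ := k * r * b * q)
    (by positivity) (by positivity) (by
      have h1 : (k * r * b * q) ^ 2 ≤ (2 * (k : ℝ) ^ 2) ^ 2 := by
        have : (k * r * b * q) ^ 2 = k ^ 2 * r ^ 2 * b ^ 2 * q ^ 2 := by ring
        rw [this, hrr, hbb, hqq]
        have : (2 * (k : ℝ) ^ 2) ^ 2 = 4 * k ^ 3 * k := by ring
        rw [this]
        have : (k : ℝ) ^ 2 * k * 8 * L = 4 * k ^ 3 * (2 * L) := by ring
        rw [this]
        apply mul_le_mul_of_nonneg_left _ (by positivity)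
        linarith
      exact abs_le_of_sq_le_sq' h1 (by positivity) |>.2)
    (by
      have h1 : 2 * (k * a * q) * r + k * r * b * q = (2 * a + b) * (k * r * q) := by ring
      have h2 : (2 * a + b) * (k * r * q) ≤ 16 * (k * r * q) :=
        mul_le_mul_of_nonneg_right hab (by positivity)
      have h3 : (k : ℝ) * ((k + 1) / 2) = (k ^ 2 + k) / 2 := by ring
      rw [h3]
      nlinarith [hc])
  have e1 : (k * r * b * q) ^ 2 / (4 * k ^ 3) = 2 * L := by
    have : (k * r * b * q) ^ 2 = k ^ 2 * r ^ 2 * b ^ 2 * q ^ 2 := by ring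
    rw [this, hrr, hbb, hqq]
    field_simp
    ring
  have e2 : (k * a * q) ^ 2 / (8 * k ^ 2) = 5 * L := by
    have : (k * a * q) ^ 2 = k ^ 2 * a ^ 2 * q ^ 2 := by ring
    rw [this, haa, hqq]
    field_simp
    ring
  have e3 : Real.exp (-(2 * L)) = ((k : ℝ) ^ 2)⁻¹ := by
    rw [Real.exp_neg, show 2 * L = L + L by ring, Real.exp_add, hL, Real.exp_log hk0, sq]
  have e4 : Real.exp (-(5 * L)) = ((k : ℝ) ^ 5)⁻¹ := by
    rw [Real.exp_neg, show 5 * L = ((5 : ℕ) : ℝ) * L by norm_num, Real.exp_nat_mul, hL,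
      Real.exp_log hk0]
  rw [e1, e2, e3, e4] at key
  have hn2 : (n : ℝ) + 1 ≤ k ^ 2 := by
    have h1 : 0 ≤ 16 * (k * r) * q := by positivity
    have h2 : (n : ℝ) ≤ (k ^ 2 + k) / 2 := by linarith
    nlinarith
  have h5 : ((n : ℝ) + 1) * k * ((k : ℝ) ^ 5)⁻¹ ≤ ((k : ℝ) ^ 2)⁻¹ := by
    calc ((n : ℝ) + 1) * k * ((k : ℝ) ^ 5)⁻¹ ≤ k ^ 2 * k * ((k : ℝ) ^ 5)⁻¹ := by gcongr
      _ = ((k : ℝ) ^ 2)⁻¹ := by field_simp
  have h6 : ((k : ℝ) + 1) * (((k : ℝ) ^ 2)⁻¹ + ((n : ℝ) + 1) * k * ((k : ℝ) ^ 5)⁻¹) ≤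
      (k + 1) * (((k : ℝ) ^ 2)⁻¹ + ((k : ℝ) ^ 2)⁻¹) := by gcongr
  have h7 : ((k : ℝ) + 1) * (((k : ℝ) ^ 2)⁻¹ + ((k : ℝ) ^ 2)⁻¹) < 1 := by
    have : ((k : ℝ) + 1) * (((k : ℝ) ^ 2)⁻¹ + ((k : ℝ) ^ 2)⁻¹) = (2 * k + 2) / k ^ 2 := by
      field_simp; ring
    rw [this, div_lt_one (by positivity)]
    nlinarith
  linarith

/-- For `k ≥ 3`, `f (k; k+1) ≥ (k² + k)/2 - 16 k^{3/2} √(log k)`. In particular, for each `c > 3/2`
there is `C > 0` such that `f (k; k+1) ≥ (k² + k)/2 - C k^c` for all sufficiently large `k`. -/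
theorem result :
    (∀ k : ℕ, 3 ≤ k →
      ((k : ℝ) ^ 2 + k) / 2 - 16 * (k : ℝ) ^ (3 / 2 : ℝ) * Real.sqrt (Real.log k) ≤ f k (k + 1)) ∧
    (∀ c : ℝ, 3 / 2 < c → ∃ C : ℝ, 0 < C ∧ ∃ K : ℕ, ∀ k : ℕ, K ≤ k →
      ((k : ℝ) ^ 2 + k) / 2 - C * (k : ℝ) ^ c ≤ f k (k + 1)) := by
  refine ⟨fun k hk => main_bound hk, ?_⟩
  intro c hc
  -- `√(log k) ≤ C' k^{c - 3/2}`
  set ε : ℝ := 2 * (c - 3 / 2) with hε
  have hε0 : 0 < ε := by rw [hε]; linarith
  refine ⟨16 * Real.sqrt (1 / ε), by positivity, 3, fun k hk => ?_⟩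
  have hk3 : (3 : ℝ) ≤ k := by exact_mod_cast hk
  have hk0 : (0 : ℝ) < k := by linarith
  refine le_trans ?_ (main_bound hk)
  have h1 : Real.log k ≤ (k : ℝ) ^ ε / ε := Real.log_le_rpow_div hk0.le hε0
  have h2 : Real.sqrt (Real.log k) ≤ Real.sqrt (1 / ε) * (k : ℝ) ^ (c - 3 / 2) := by
    calc Real.sqrt (Real.log k) ≤ Real.sqrt ((k : ℝ) ^ ε / ε) := Real.sqrt_le_sqrt h1
      _ = Real.sqrt (1 / ε) * (k : ℝ) ^ (c - 3 / 2) := by
          rw [div_eq_mul_one_div, mul_comm, Real.sqrt_mul (by positivity)]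
          congr 1
          rw [Real.sqrt_eq_rpow, ← Real.rpow_mul hk0.le]
          congr 1
          rw [hε]; ring
  have h3 : (k : ℝ) ^ c = (k : ℝ) ^ (3 / 2 : ℝ) * (k : ℝ) ^ (c - 3 / 2) := by
    rw [← Real.rpow_add hk0]; congr 1; ring
  have h4 : 0 ≤ 16 * (k : ℝ) ^ (3 / 2 : ℝ) := by positivity
  have h5 := mul_le_mul_of_nonneg_left h2 h4
  rw [h3]
  nlinarith [h5]

end Pool.Agent.Results.MP_467d97_co.LowerOrderTerm
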